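import Pool.Agent.Lib.MP_e1539f_lc.Final

/-!
# The minimax regret of mixed-state quantum bandits is `O(d^{3/2} √T)`

The policy follows the regularised leader with a log-determinant barrier and the regularisation
parameter `3 d + √(d t)`. If the leader is `W = A A*`, the measured projector is the one onto the
line of `A φ`, where `φ` runs over the vectors `e_i + ω e_j` (`ω` a fourth root of unity), chosen
with probability proportional to `‖A φ‖²`. The expected projector is `W` and the resulting unbiased
estimate of the state has squared local norm at most `2 d²`.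
The facts that regrets are integrable, nonnegative and at most `T` (so that none of the infima,
suprema and integrals in the definitions degenerates) are `integrable_regret`,
`expectedRegret_nonneg` and `expectedRegret_le`.
-/

namespace Pool.Agent.Results.MP_e1539f_lc.UpperBound

open Pool.Agent.Lib.MP_e1539f_lc

/-- For all `d ≥ 2` and `T` some policy has expected regret at most `41 d^{3/2} √T` in every state.
Hence the lower bound `c d² √T` fails: for every `c > 0` and every `T₀` there are `d ≥ 2` and
`T ≥ T₀ d` with `R*_T(d) < c d² √T`. -/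
theorem result :
    (∀ d T : ℕ, 2 ≤ d → ∃ π : Policy d, ∀ ρ : State d,
      expectedRegret ρ π T ≤ 41 * (d : ℝ) ^ (3 / 2 : ℝ) * √(T : ℝ)) ∧
    (∀ c : ℝ, 0 < c → ∀ T₀ : ℕ → ℕ, ∃ d T : ℕ, 2 ≤ d ∧ T₀ d ≤ T ∧
      minimaxRegret d T < c * (d : ℝ) ^ 2 * √(T : ℝ)) := by
  refine ⟨fun d T hd => ?_, fun c hc T₀ => ?_⟩
  · have : NeZero d := ⟨by omega⟩
    exact exists_policy T
  · obtain ⟨n, hn⟩ := exists_nat_gt ((41 / c) ^ 2)
    set d := n + 2 with hd
    have : NeZero d := ⟨by omega⟩
    refine ⟨d, max 1 (T₀ d), by omega, le_max_right _ _, ?_⟩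
    set T := max 1 (T₀ d) with hT
    have hT1 : (0 : ℝ) < √(T : ℝ) := Real.sqrt_pos.2 (by
      have : 1 ≤ T := le_max_left _ _
      exact_mod_cast this)
    refine (minimaxRegret_le (d := d) T).trans_lt ?_
    refine mul_lt_mul_of_pos_right ?_ hT1
    have hdpos : (0 : ℝ) < d := d_pos
    have hpow : (d : ℝ) ^ (3 / 2 : ℝ) = d * Real.sqrt d := by
      rw [show (3 / 2 : ℝ) = 1 + 1 / 2 by norm_num, Real.rpow_add hdpos, Real.rpow_one,
        Real.sqrt_eq_rpow]
    have h1 : 41 / c < Real.sqrt d := by
      apply Real.lt_sqrt_of_sq_lt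
      refine hn.trans ?_
      rw [hd]
      push_cast
      linarith
    have h2 : Real.sqrt d * Real.sqrt d = d := Real.mul_self_sqrt hdpos.le
    have h3 : 41 < c * Real.sqrt d := by
      rw [div_lt_iff₀ hc] at h1
      linarith
    rw [hpow]
    have h4 : 0 < (d : ℝ) * Real.sqrt d := by positivity
    calc 41 * ((d : ℝ) * Real.sqrt d) < c * Real.sqrt d * ((d : ℝ) * Real.sqrt d) := by gcongr
      _ = c * (d : ℝ) ^ 2 := by
        rw [pow_two]
        nth_rewrite 5 [← h2]
        ring

end Pool.Agent.Results.MP_e1539f_lc.UpperBound
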